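import Mathlib

namespace Pool.Agent.Results.MP_bc0e65_co.Periods

/-- finite impartial games: a game is its finite family of options -/
inductive Game : Type
  | mk (n : ℕ) (f : Fin n → Game) : Game

def opts : Game → Set Game
  | .mk _ f => Set.range f

def size : Game → ℕ
  | .mk _ f => 1 + ∑ i, size (f i)

lemma size_lt {n : ℕ} (f : Fin n → Game) (i : Fin n) : size (f i) < size (.mk n f) := by
  have : size (f i) ≤ ∑ j, size (f j) :=
    Finset.single_le_sum (f := fun j => size (f j)) (fun _ _ => Nat.zero_le _) (Finset.mem_univ i)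
  rw [size]
  omega

/-- disjunctive sum -/
def add : Game → Game → Game
  | .mk n f, .mk m g =>
    .mk (n + m) (Fin.addCases (fun i => add (f i) (.mk m g)) (fun j => add (.mk n f) (g j)))
termination_by x y => size x + size y
decreasing_by
  · have := size_lt f i
    omega
  · have := size_lt g j
    omega

/-- misere outcome P: there is a move, and no move leads to a P-position -/
def IsP : Game → Prop
  | .mk n f => n ≠ 0 ∧ ∀ i, ¬ IsP (f i)

/-- the multiple n x -/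
def mul : ℕ → Game → Game
  | 0, _ => .mk 0 Fin.elim0
  | n + 1, x => add (mul n x) x

def Closed (A : Set Game) : Prop :=
  (∀ x ∈ A, ∀ y ∈ A, add x y ∈ A) ∧ ∀ x ∈ A, ∀ y ∈ opts x, y ∈ A

def Eqv (A : Set Game) (h k : Game) : Prop :=
  ∀ x ∈ A, (IsP (add h x) ↔ IsP (add k x))

def HasPeriod (A : Set Game) (x : Game) (p : ℕ) : Prop :=
  IsLeast {q | 1 ≤ q ∧ ∃ m, 1 ≤ m ∧ Eqv A (mul (m + q) x) (mul m x)} p

abbrev V := ℕ × ℕ × ℕ × ℕ × ℕ

def Move (L : List (V × List V)) (v u : V) : Prop :=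
  ∃ p ∈ L, ∃ o ∈ p.2, ∃ w, v = w + p.1 ∧ u = w + o

def Rep (L : List (V × List V)) : Game → V → Prop
  | .mk _ f, v => (∀ i, ∃ u, Move L v u ∧ Rep L (f i) u) ∧ ∀ u, Move L v u → ∃ i, Rep L (f i) u

def Un (e : V) : Prop :=
  e = (1, 0, 0, 0, 0) ∨ e = (0, 1, 0, 0, 0) ∨ e = (0, 0, 1, 0, 0) ∨ e = (0, 0, 0, 1, 0) ∨
    e = (0, 0, 0, 0, 1)

lemma un_split {e : V} (he : Un e) {v1 v2 w : V} (h : v1 + v2 = w + e) :
    (∃ w1, v1 = w1 + e ∧ w = w1 + v2) ∨ ∃ w2, v2 = w2 + e ∧ w = v1 + w2 := by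
  obtain ⟨a1, b1, c1, d1, n1⟩ := v1
  obtain ⟨a2, b2, c2, d2, n2⟩ := v2
  obtain ⟨a, b, c, d, n⟩ := w
  by_cases hc : e.1 ≤ a1 ∧ e.2.1 ≤ b1 ∧ e.2.2.1 ≤ c1 ∧ e.2.2.2.1 ≤ d1 ∧ e.2.2.2.2 ≤ n1
  · left
    refine ⟨(a1, b1, c1, d1, n1) - e, ?_⟩
    rcases he with rfl | rfl | rfl | rfl | rfl <;>
      simp only [Prod.mk_add_mk, Prod.mk_sub_mk, Prod.mk.injEq] at h hc ⊢ <;> omega
  · right
    refine ⟨(a2, b2, c2, d2, n2) - e, ?_⟩
    rcases he with rfl | rfl | rfl | rfl | rfl <;>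
      simp only [Prod.mk_add_mk, Prod.mk_sub_mk, Prod.mk.injEq] at h hc ⊢ <;> omega

lemma move_add {L : List (V × List V)} (hL : ∀ p ∈ L, Un p.1) (v1 v2 u : V) :
    Move L (v1 + v2) u ↔ (∃ u1, Move L v1 u1 ∧ u = u1 + v2) ∨ ∃ u2, Move L v2 u2 ∧ u = v1 + u2 := by
  constructor
  · rintro ⟨p, hp, o, ho, w, h1, h2⟩
    rcases un_split (hL p hp) h1 with ⟨w1, h3, h4⟩ | ⟨w2, h3, h4⟩
    · exact Or.inl ⟨w1 + o, ⟨p, hp, o, ho, w1, h3, rfl⟩, by rw [h2, h4]; abel⟩
    · exact Or.inr ⟨w2 + o, ⟨p, hp, o, ho, w2, h3, rfl⟩, by rw [h2, h4]; abel⟩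
  · rintro (⟨u1, ⟨p, hp, o, ho, w, h1, h2⟩, h3⟩ | ⟨u1, ⟨p, hp, o, ho, w, h1, h2⟩, h3⟩)
    · exact ⟨p, hp, o, ho, w + v2, by rw [h1]; abel, by rw [h3, h2]; abel⟩
    · exact ⟨p, hp, o, ho, v1 + w, by rw [h1]; abel, by rw [h3, h2]; abel⟩

lemma rep_add {L : List (V × List V)} (hL : ∀ p ∈ L, Un p.1) (x : Game) :
    ∀ (y : Game) (v w : V), Rep L x v → Rep L y w → Rep L (add x y) (v + w) := by
  induction x with
  | mk n f ihx =>
    intro y
    induction y with
    | mk m g ihy =>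
      intro v w hx hy
      have hx' := hx
      have hy' := hy
      rw [Rep] at hx' hy'
      rw [add, Rep]
      constructor
      · intro z
        induction z using Fin.addCases with
        | left i =>
          obtain ⟨u, hu, hr⟩ := hx'.1 i
          rw [Fin.addCases_left]
          exact ⟨u + w, (move_add hL _ _ _).2 (Or.inl ⟨u, hu, rfl⟩), ihx i _ _ _ hr hy⟩
        | right j =>
          obtain ⟨u, hu, hr⟩ := hy'.1 j
          rw [Fin.addCases_right]
          exact ⟨v + u, (move_add hL _ _ _).2 (Or.inr ⟨u, hu, rfl⟩), ihy j _ _ hx hr⟩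
      · intro u hu
        rcases (move_add hL _ _ _).1 hu with ⟨u1, h1, rfl⟩ | ⟨u1, h1, rfl⟩
        · obtain ⟨i, hr⟩ := hx'.2 u1 h1
          refine ⟨Fin.castAdd m i, ?_⟩
          rw [Fin.addCases_left]
          exact ihx i _ _ _ hr hy
        · obtain ⟨j, hr⟩ := hy'.2 u1 h1
          refine ⟨Fin.natAdd n j, ?_⟩
          rw [Fin.addCases_right]
          exact ihy j _ _ hx hr

lemma rep_out {L : List (V × List V)} {Q : V → Prop}
    (hQ : ∀ v, Q v ↔ (∃ u, Move L v u) ∧ ∀ u, Move L v u → ¬ Q u) (x : Game) :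
    ∀ v, Rep L x v → (IsP x ↔ Q v) := by
  induction x with
  | mk n f ih =>
    intro v hx
    rw [Rep] at hx
    rw [IsP, hQ]
    constructor
    · rintro ⟨h1, h2⟩
      obtain ⟨u, hu, -⟩ := hx.1 ⟨0, Nat.pos_of_ne_zero h1⟩
      refine ⟨⟨u, hu⟩, fun u' hu' hq => ?_⟩
      obtain ⟨i, hr⟩ := hx.2 u' hu'
      exact h2 i ((ih i u' hr).2 hq)
    · rintro ⟨⟨u, hu⟩, h2⟩
      obtain ⟨i, -⟩ := hx.2 u hu
      refine ⟨i.pos.ne', fun j hp => ?_⟩
      obtain ⟨u', hu', hr⟩ := hx.1 j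
      exact h2 u' hu' ((ih j u' hr).1 hp)

def le (e v : V) : Bool :=
  decide (e.1 ≤ v.1) && decide (e.2.1 ≤ v.2.1) && decide (e.2.2.1 ≤ v.2.2.1) &&
    decide (e.2.2.2.1 ≤ v.2.2.2.1) && decide (e.2.2.2.2 ≤ v.2.2.2.2)

def mv (L : List (V × List V)) (v : V) : List V :=
  L.flatMap fun p => if le p.1 v then p.2.map fun o => v - p.1 + o else []

lemma le_iff (e v : V) : le e v = true ↔ ∃ w, v = w + e := by
  obtain ⟨a1, b1, c1, d1, n1⟩ := e
  obtain ⟨a2, b2, c2, d2, n2⟩ := v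
  simp only [le, Bool.and_eq_true, decide_eq_true_eq]
  constructor
  · intro h
    refine ⟨(a2 - a1, b2 - b1, c2 - c1, d2 - d1, n2 - n1), ?_⟩
    simp only [Prod.mk_add_mk, Prod.mk.injEq]
    omega
  · rintro ⟨⟨a, b, c, d, n⟩, h⟩
    simp only [Prod.mk_add_mk, Prod.mk.injEq] at h
    omega

lemma sub_can (w e : V) : w + e - e = w := by
  obtain ⟨a1, b1, c1, d1, n1⟩ := e
  obtain ⟨a2, b2, c2, d2, n2⟩ := w
  simp only [Prod.mk_add_mk, Prod.mk_sub_mk, Prod.mk.injEq]
  omega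

lemma mem_mv (L : List (V × List V)) (v u : V) : u ∈ mv L v ↔ Move L v u := by
  unfold mv Move
  simp only [List.mem_flatMap]
  constructor
  · rintro ⟨p, hp, h⟩
    split_ifs at h with hl
    · obtain ⟨o, ho, rfl⟩ := List.mem_map.1 h
      obtain ⟨w, rfl⟩ := (le_iff _ _).1 hl
      exact ⟨p, hp, o, ho, w, rfl, by rw [sub_can]⟩
    · simp at h
  · rintro ⟨p, hp, o, ho, w, rfl, rfl⟩
    refine ⟨p, hp, ?_⟩
    rw [if_pos ((le_iff _ _).2 ⟨w, rfl⟩), sub_can]
    exact List.mem_map_of_mem ho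

def mu (v : V) : ℕ := v.1 + 2 * v.2.1 + 10 * v.2.2.1 + 100 * v.2.2.2.1 + 1000 * v.2.2.2.2

lemma mu_add (v w : V) : mu (v + w) = mu v + mu w := by
  simp only [mu, Prod.fst_add, Prod.snd_add]
  ring

lemma ex_rep {L : List (V × List V)} (hm : ∀ p ∈ L, ∀ o ∈ p.2, mu o < mu p.1) (v : V) :
    ∃ x, Rep L x v := by
  induction hn : mu v using Nat.strong_induction_on generalizing v with
  | _ n ih =>
    have h : ∀ u, ∃ x, Move L v u → Rep L x u := by
      intro u
      by_cases hu : Move L v u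
      · obtain ⟨p, hp, o, ho, w, h1, h2⟩ := hu
        have : mu u < n := by
          rw [← hn, h1, h2, mu_add, mu_add]
          have := hm p hp o ho
          omega
        obtain ⟨x, hx⟩ := ih _ this u rfl
        exact ⟨x, fun _ => hx⟩
      · exact ⟨.mk 0 Fin.elim0, fun h => absurd h hu⟩
    choose f hf using h
    refine ⟨.mk (mv L v).length fun i => f ((mv L v).get i), ?_⟩
    rw [Rep]
    constructor
    · intro i
      have hu := (mem_mv _ _ _).1 (List.get_mem (mv L v) i)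
      exact ⟨_, hu, hf _ hu⟩
    · intro u hu
      obtain ⟨i, hi⟩ := List.get_of_mem ((mem_mv _ _ _).2 hu)
      exact ⟨i, by rw [hi]; exact hf u hu⟩

def rd (M p c : ℕ) : ℕ := if c < M then c else M + (c - M) % p

lemma rd1 (M p c k : ℕ) : rd M p (rd (M + 1) p c - 1 + k) = rd M p (c - 1 + k) := by
  by_cases h : c < M + 1
  · rw [show rd (M + 1) p c = c by simp [rd, h]]
  · rw [show rd (M + 1) p c = M + 1 + (c - (M + 1)) % p by simp [rd, h]]
    unfold rd
    rw [if_neg (by omega), if_neg (by omega),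
      show M + 1 + (c - (M + 1)) % p - 1 + k - M = (c - (M + 1)) % p + k by omega,
      show c - 1 + k - M = c - (M + 1) + k by omega, Nat.mod_add_mod]

lemma rd0 (M p c k : ℕ) : rd M p (rd (M + 1) p c - 0 + k) = rd M p (c - 0 + k) := by
  by_cases h : c < M + 1
  · rw [show rd (M + 1) p c = c by simp [rd, h]]
  · rw [show rd (M + 1) p c = M + 1 + (c - (M + 1)) % p by simp [rd, h]]
    unfold rd
    rw [if_neg (by omega), if_neg (by omega),
      show M + 1 + (c - (M + 1)) % p - 0 + k - M = (c - (M + 1)) % p + (k + 1) by omega,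
      show c - 0 + k - M = c - (M + 1) + (k + 1) by omega, Nat.mod_add_mod]

lemma rd_pos (M p c : ℕ) : 1 ≤ rd (M + 1) p c ↔ 1 ≤ c := by
  unfold rd
  split_ifs <;> omega

lemma rd_lt (M p c : ℕ) (hp : 0 < p) : rd M p c < M + p := by
  unfold rd
  have := Nat.mod_lt (c - M) hp
  split_ifs <;> omega

def Qb (T r p : ℕ) (v : V) : Bool :=
  T.testBit (rd 0 2 v.1 + 2 * (rd 3 2 v.2.1 + 5 * (rd 3 2 v.2.2.1 + 5 * (rd 3 2 v.2.2.2.1 +
    5 * rd r p v.2.2.2.2))))

def rho (r p : ℕ) (v : V) : V :=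
  (rd 1 2 v.1, rd 4 2 v.2.1, rd 4 2 v.2.2.1, rd 4 2 v.2.2.2.1, rd (r + 1) p v.2.2.2.2)

def rhs (L : List (V × List V)) (T r p : ℕ) (v : V) : Bool :=
  (L.any fun g => le g.1 v && !g.2.isEmpty) &&
    L.all fun g => !le g.1 v || g.2.all fun o => !Qb T r p (v - g.1 + o)

def rf (M p c : ℕ) : ℕ := cond (Nat.ble M c) (Nat.add M (Nat.mod (Nat.sub c M) p)) c

lemma rf_eq (M p c : ℕ) : rf M p c = rd M p c := by
  unfold rf rd
  by_cases h : c < M
  · rw [if_pos h, show Nat.ble M c = false by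
      rw [← Bool.not_eq_true, Nat.ble_eq]; omega]
    rfl
  · rw [if_neg h, show Nat.ble M c = true by rw [Nat.ble_eq]; omega]
    rfl

def Qf (T r p a b c d n : ℕ) : Bool :=
  Nat.beq (Nat.mod (Nat.shiftRight T (Nat.add (rf 0 2 a) (Nat.mul 2 (Nat.add (rf 3 2 b) (Nat.mul 5
    (Nat.add (rf 3 2 c) (Nat.mul 5 (Nat.add (rf 3 2 d) (Nat.mul 5 (rf r p n)))))))))) 2) 1

lemma Qf_eq (T r p a b c d n : ℕ) : Qf T r p a b c d n = Qb T r p (a, b, c, d, n) := by
  unfold Qf Qb
  simp only [rf_eq, Nat.testBit_eq_decide_div_mod_eq, Nat.add_eq, Nat.mul_eq,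
    Nat.shiftRight_eq, Nat.shiftRight_eq_div_pow]
  rw [Bool.eq_iff_iff, Nat.beq_eq, decide_eq_true_eq]
  rfl

def lf (a b c d n : ℕ) : V → Bool
  | (a', b', c', d', n') =>
    Nat.ble a' a && Nat.ble b' b && Nat.ble c' c && Nat.ble d' d && Nat.ble n' n

def Qg (T r p a b c d n : ℕ) : V → V → Bool
  | (a', b', c', d', n'), (a2, b2, c2, d2, n2) =>
    Qf T r p (Nat.add (Nat.sub a a') a2) (Nat.add (Nat.sub b b') b2) (Nat.add (Nat.sub c c') c2)
      (Nat.add (Nat.sub d d') d2) (Nat.add (Nat.sub n n') n2)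

def rhf (L : List (V × List V)) (T r p a b c d n : ℕ) : Bool :=
  (L.any fun g => lf a b c d n g.1 && !g.2.isEmpty) &&
    L.all fun g => !lf a b c d n g.1 || g.2.all fun o => !Qg T r p a b c d n g.1 o

lemma rhf_eq (L : List (V × List V)) (T r p a b c d n : ℕ) :
    rhf L T r p a b c d n = rhs L T r p (a, b, c, d, n) := by
  have h1 : ∀ e, lf a b c d n e = le e (a, b, c, d, n) := by
    rintro ⟨a', b', c', d', n'⟩
    rw [Bool.eq_iff_iff]
    simp [lf, le]
  have h2 : ∀ e o, Qg T r p a b c d n e o = Qb T r p ((a, b, c, d, n) - e + o) := by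
    rintro ⟨a', b', c', d', n'⟩ ⟨a2, b2, c2, d2, n2⟩
    rw [Qg, Qf_eq]
    rfl
  simp only [rhf, rhs, h1, h2]

def chk1 (L : List (V × List V)) (T r p n : ℕ) : Bool :=
  [0, 1, 2].all fun a => [0, 1, 2, 3, 4, 5].all fun b => [0, 1, 2, 3, 4, 5].all fun c =>
    [0, 1, 2, 3, 4, 5].all fun d => Qf T r p a b c d n == rhf L T r p a b c d n

def chk (L : List (V × List V)) (T r p : ℕ) : Prop := ∀ n < r + 1 + p, chk1 L T r p n = true

lemma le_rho {e : V} (he : Un e) (r p : ℕ) (v : V) : le e (rho r p v) = le e v := by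
  have h1 := rd_pos 0 2 v.1
  have h2 := rd_pos 3 2 v.2.1
  have h3 := rd_pos 3 2 v.2.2.1
  have h4 := rd_pos 3 2 v.2.2.2.1
  have h5 := rd_pos r p v.2.2.2.2
  rcases he with rfl | rfl | rfl | rfl | rfl <;> simp [le, rho, *]

lemma Q_rho {e : V} (he : Un e ∨ e = 0) (T r p : ℕ) (v o : V) :
    Qb T r p (rho r p v - e + o) = Qb T r p (v - e + o) := by
  have a0 := rd0 0 2 v.1 o.1
  have a1 := rd1 0 2 v.1 o.1
  have b0 := rd0 3 2 v.2.1 o.2.1
  have b1 := rd1 3 2 v.2.1 o.2.1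
  have c0 := rd0 3 2 v.2.2.1 o.2.2.1
  have c1 := rd1 3 2 v.2.2.1 o.2.2.1
  have d0 := rd0 3 2 v.2.2.2.1 o.2.2.2.1
  have d1 := rd1 3 2 v.2.2.2.1 o.2.2.2.1
  have n0 := rd0 r p v.2.2.2.2 o.2.2.2.2
  have n1 := rd1 r p v.2.2.2.2 o.2.2.2.2
  rcases he with (rfl | rfl | rfl | rfl | rfl) | rfl <;>
    simp only [Qb, rho, Prod.fst_add, Prod.snd_add, Prod.fst_sub, Prod.snd_sub, Prod.fst_zero,
      Prod.snd_zero, Nat.reduceAdd] at * <;> simp only [*]

lemma Q_spec {L : List (V × List V)} (hL : ∀ g ∈ L, Un g.1) {T r p : ℕ} (hp : 0 < p)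
    (hc : chk L T r p) (v : V) :
    Qb T r p v = true ↔ (∃ u, Move L v u) ∧ ∀ u, Move L v u → ¬ Qb T r p u = true := by
  have h1 : Qb T r p (rho r p v) = rhs L T r p (rho r p v) := by
    have h := hc _ (rd_lt (r + 1) p v.2.2.2.2 hp)
    simp only [chk1, List.all_eq_true, beq_iff_eq, Qf_eq, rhf_eq] at h
    have m3 : ∀ k, k < 1 + 2 → k ∈ [0, 1, 2] := by decide
    have m6 : ∀ k, k < 4 + 2 → k ∈ [0, 1, 2, 3, 4, 5] := by decide
    exact h _ (m3 _ (rd_lt 1 2 _ (by norm_num))) _ (m6 _ (rd_lt 4 2 _ (by norm_num)))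
      _ (m6 _ (rd_lt 4 2 _ (by norm_num))) _ (m6 _ (rd_lt 4 2 _ (by norm_num)))
  have h2 : Qb T r p (rho r p v) = Qb T r p v := by
    have := Q_rho (Or.inr rfl) T r p v 0
    have e : ∀ w : V, w - 0 + 0 = w := fun w => by
      have := sub_can w 0
      rw [add_zero] at this
      rw [add_zero, this]
    rwa [e, e] at this
  rw [← h2, h1]
  simp only [rhs, Bool.and_eq_true, List.any_eq_true, List.all_eq_true, Bool.or_eq_true,
    Bool.not_eq_true', List.isEmpty_eq_false_iff]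
  constructor
  · rintro ⟨⟨g, hg, h3, h4⟩, h5⟩
    rw [le_rho (hL g hg), le_iff] at h3
    obtain ⟨w, hw⟩ := h3
    obtain ⟨o, ho⟩ := List.exists_mem_of_ne_nil _ h4
    refine ⟨⟨w + o, g, hg, o, ho, w, hw, rfl⟩, ?_⟩
    rintro u ⟨g', hg', o', ho', w', hw', rfl⟩
    rcases h5 g' hg' with h6 | h6
    · rw [le_rho (hL g' hg'), (le_iff _ _).2 ⟨w', hw'⟩] at h6
      exact absurd h6 (by simp)
    · have := h6 o' ho'
      rw [Q_rho (Or.inl (hL g' hg')), hw', sub_can] at this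
      simp [this]
  · rintro ⟨⟨u, g, hg, o, ho, w, hw, -⟩, h5⟩
    refine ⟨⟨g, hg, ?_, List.ne_nil_of_mem ho⟩, fun g' hg' => ?_⟩
    · rw [le_rho (hL g hg), le_iff]
      exact ⟨w, hw⟩
    · rw [le_rho (hL g' hg')]
      by_cases h6 : le g'.1 v = true
      · right
        intro o' ho'
        obtain ⟨w', hw'⟩ := (le_iff _ _).1 h6
        rw [Q_rho (Or.inl (hL g' hg'))]
        have := h5 (w' + o') ⟨g', hg', o', ho', w', hw', rfl⟩
        rw [hw', sub_can]
        simpa using this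
      · left
        simpa using h6

lemma rep_mul {L : List (V × List V)} (hL : ∀ g ∈ L, Un g.1) {x : Game}
    (hx : Rep L x (0, 0, 0, 0, 1)) (n : ℕ) : Rep L (mul n x) (0, 0, 0, 0, n) := by
  induction n with
  | zero =>
    rw [mul, Rep]
    refine ⟨fun i => i.elim0, ?_⟩
    rintro u ⟨g, hg, o, -, ⟨a, b, c, d, n⟩, h, -⟩
    exfalso
    rcases hL g hg with h1 | h1 | h1 | h1 | h1 <;> rw [h1] at h <;>
      simp only [Prod.mk_add_mk, Prod.mk.injEq] at h <;> omega
  | succ n ih => exact rep_add hL _ _ _ _ ih hx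

lemma main (L : List (V × List V)) (hL : ∀ g ∈ L, Un g.1) (hm : ∀ g ∈ L, ∀ o ∈ g.2, mu o < mu g.1)
    (T r p : ℕ) (hp : 0 < p) (hr : 1 ≤ r) (hc : chk L T r p) (a b c d : ℕ)
    (h0 : Qb T r p (a, b, c, d, r) = true) (h1 : ∀ q < p, 1 ≤ q → Qb T r p (a, b, c, d, r + q) = false) :
    ∃ (A : Set Game) (x : Game), Closed A ∧ x ∈ A ∧ HasPeriod A x p := by
  obtain ⟨x, hx⟩ := ex_rep hm (0, 0, 0, 0, 1)
  have out : ∀ n y w, Rep L y w → (IsP (add (mul n x) y) ↔ Qb T r p ((0, 0, 0, 0, n) + w) = true) :=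
    fun n y w hy => rep_out (Q_spec hL hp hc) _ _ (rep_add hL _ _ _ _ (rep_mul hL hx n) hy)
  have per : ∀ a b c d k j, Qb T r p (a, b, c, d, r + k + p * j) = Qb T r p (a, b, c, d, r + k) := by
    intro a b c d k j
    have : rd r p (r + k + p * j) = rd r p (r + k) := by
      unfold rd
      rw [if_neg (by omega), if_neg (by omega), show r + k + p * j - r = k + p * j by omega,
        show r + k - r = k by omega, Nat.add_mul_mod_self_left]
    simp only [Qb, this]
  refine ⟨{y | ∃ v, Rep L y v}, x, ⟨?_, ?_⟩, ⟨_, hx⟩, ⟨hp, r, hr, ?_⟩, ?_⟩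
  · rintro y ⟨v, hv⟩ z ⟨w, hw⟩
    exact ⟨_, rep_add hL _ _ _ _ hv hw⟩
  · rintro ⟨k, g⟩ ⟨v, hv⟩ z ⟨i, rfl⟩
    rw [Rep] at hv
    obtain ⟨u, -, hu⟩ := hv.1 i
    exact ⟨u, hu⟩
  · rintro y ⟨⟨a, b, c, d, k⟩, hw⟩
    rw [out _ _ _ hw, out _ _ _ hw]
    simp only [Prod.mk_add_mk, zero_add]
    rw [show r + p + k = r + k + p * 1 by ring, per]
  · rintro q ⟨hq, m, -, he⟩
    by_contra hlt
    obtain ⟨y, hy⟩ := ex_rep hm (a, b, c, d, r + (p - 1) * m)
    have h2 := he y ⟨_, hy⟩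
    rw [out _ _ _ hy, out _ _ _ hy] at h2
    simp only [Prod.mk_add_mk, zero_add] at h2
    obtain ⟨p', rfl⟩ : ∃ p', p = p' + 1 := ⟨p - 1, by omega⟩
    rw [Nat.add_sub_cancel, show m + q + (r + p' * m) = r + q + (p' + 1) * m by ring,
      show m + (r + p' * m) = r + 0 + (p' + 1) * m by ring, per, per, h1 q (by omega) hq, add_zero,
      h0] at h2
    simp at h2

def base : List (V × List V) :=
  [((1, 0, 0, 0, 0), [(0, 0, 0, 0, 0)]), ((0, 1, 0, 0, 0), [(0, 0, 0, 0, 0), (1, 0, 0, 0, 0)])]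

def L5 : List (V × List V) := base ++
  [((0, 0, 1, 0, 0), [(1, 0, 0, 0, 0), (1, 2, 0, 0, 0)]),
   ((0, 0, 0, 1, 0), [(0, 0, 1, 0, 0), (1, 0, 0, 0, 0), (1, 0, 1, 0, 0), (1, 0, 2, 0, 0)]),
   ((0, 0, 0, 0, 1), [(0, 0, 0, 1, 0), (1, 0, 0, 0, 0)])]

def L8 : List (V × List V) := base ++
  [((0, 0, 1, 0, 0), [(0, 2, 0, 0, 0), (1, 0, 0, 0, 0)]),
   ((0, 0, 0, 1, 0), [(0, 0, 1, 0, 0), (1, 0, 0, 0, 0), (1, 2, 0, 0, 0)]),
   ((0, 0, 0, 0, 1), [(0, 1, 0, 1, 0), (0, 2, 0, 0, 0), (1, 0, 0, 1, 0), (1, 0, 1, 0, 0)])]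

def T5 : ℕ := 16934774782829365465436198936463504808418612192361614092208123812349935169599599620986847236225676883351452016964254975301946403556896297411663036227529227326674453925723072182347512551934310376824310749232099569012906589615617780183452043593661661895232332565016992060795200862424245271419731391704515720280705372572051390275473184229840379141869999473954223017344887482361910222185919658051216237485745700037644963514608368605206348303302560439452910893188551974711210259687803957364960315808994295438140228785144211744821522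

def T8 : ℕ := 6576247205155819466779767508843500126108964216323144485005449351999704673494429359963643547177412429743643098567552619194324314696220634117077925194367787174959863880583661658639722903324178899942185725551173682457140167423354451090222530220514697673671071367612265371782882513802106840564450418976831537453810047072102010818744326084194438464277655972175394846345633627433098778728028077679351607350297824123142028903937614253025043859392977108620648544002230127724017129638505991996977267158420922794193513211318342578326499388698456696736859004675223632303117899015268850983654098094484987910896363660807424140588771406435483597388533129672385287047650478723298600691628408886031487509908768503390785863375669602426914786936700062522146602589304110310270825544727212909157612523697827273099176603582094888397510984120563629719934206210038802900125970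

lemma c5 : chk L5 T5 2 5 := by
  intro n hn
  interval_cases n <;> decide +kernel

lemma c8 : chk L8 T8 4 8 := by
  intro n hn
  interval_cases n <;> decide +kernel

theorem result :
    (∃ (A : Set Game) (x : Game), Closed A ∧ x ∈ A ∧ HasPeriod A x 5) ∧
    (∃ (A : Set Game) (x : Game), Closed A ∧ x ∈ A ∧ HasPeriod A x 8) := by
  constructor
  · exact main L5 (by simp [L5, base, Un]) (by decide) T5 2 5 (by norm_num) (by norm_num)
      c5 0 1 1 0 (by decide +kernel) (by decide +kernel)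
  · exact main L8 (by simp [L8, base, Un]) (by decide) T8 4 8 (by norm_num) (by norm_num)
      c8 1 1 1 0 (by decide +kernel) (by decide +kernel)

end Pool.Agent.Results.MP_bc0e65_co.Periods
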